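import Pool.Agent.L7h55.TN.Stm2

/-! Project TN, parts RT, POS, CON. -/

set_option autoImplicit false

open Polynomial Filter

namespace Pool.Agent.L7h96.TN

open Pool.Agent.L7h55.TN

theorem der1 (A : ℕ) : derivative (T A) = C ((A : ℤ) * (2 * A + 2)) * X ^ (2 * A + 1) -
    C (((A : ℤ) + 1) * (2 * A + 1)) * X ^ (2 * A) + C ((A : ℤ) + 1) := by
  unfold T
  rw [derivative_sub, derivative_C_mul, derivative_C_mul, derivative_sub, derivative_sub,
    derivative_X_pow, derivative_X_pow, derivative_X, derivative_one, Nat.add_sub_cancel,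
    show 2 * A + 2 - 1 = 2 * A + 1 by omega, C_mul, C_mul]
  push_cast
  ring

theorem der2 (A : ℕ) (hA : 1 ≤ A) : derivative (derivative (T A)) =
    C (2 * (A : ℤ) * (A + 1) * (2 * A + 1)) * X ^ (2 * A - 1) * (X - 1) := by
  obtain ⟨k, rfl⟩ : ∃ k, A = k + 1 := ⟨A - 1, by omega⟩
  rw [der1, derivative_add, derivative_sub, derivative_C_mul, derivative_C_mul, derivative_C,
    derivative_X_pow, derivative_X_pow, Nat.add_sub_cancel,
    show 2 * (k + 1) - 1 = 2 * k + 1 by omega, show 2 * (k + 1) = (2 * k + 1) + 1 by ring,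
    pow_succ]
  push_cast
  simp only [C_mul, C_add, C_1]
  have h2 : (C (2 : ℤ) : ℤ[X]) = 2 := by simp
  rw [h2]
  ring

theorem root_int {f : ℤ[X]} {a : ℤ} (h : aeval ((a : ℤ) : ℂ) f = 0) : f.eval a = 0 := by
  have h1 := aeval_algebraMap_apply_eq_algebraMap_eval (A := ℂ) a f
  rw [eq_intCast, eq_intCast] at h1
  rw [h] at h1
  exact_mod_cast h1.symm

theorem aeval_T (A : ℕ) (z : ℂ) : S (2 * A + 1) z = 2 * aeval z (T A) := by
  unfold S T
  simp only [map_sub, map_mul, map_add, map_pow, aeval_X, aeval_C, map_one]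
  push_cast
  simp
  ring

/-- **RT** -/
theorem s_RT (hC : S_CIR) : S_RT := by
  intro A f g hA hF z hz
  have hS : S (2 * A + 1) z = 0 := by
    rw [aeval_T, ← hF.eq]
    simp [hz]
  refine ⟨hS, hC (2 * A + 1) (by omega) z hS, ?_, ?_⟩
  · rintro rfl
    have h1 : f.eval 1 = 0 := root_int (by simpa using hz)
    have h2 : (X - C 1 : ℤ[X]) ∣ f := dvd_iff_isRoot.2 h1
    rw [C_1] at h2
    have h3 : (X - 1 : ℤ[X]) ^ 4 ∣ T A := by
      obtain ⟨k, hk⟩ := h2
      refine ⟨(X + 1) * k * g, ?_⟩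
      rw [← hF.eq, hk]
      unfold L4
      ring
    have h4 := pow_sub_one_dvd_derivative_of_pow_dvd
      (pow_sub_one_dvd_derivative_of_pow_dvd h3)
    rw [der2 A (by omega), show 4 - 1 - 1 = 2 from rfl] at h4
    have hX : (X - 1 : ℤ[X]) ≠ 0 := by
      intro h
      have := congrArg (eval 0) h
      simp at this
    rw [pow_two] at h4
    have h5 := (mul_dvd_mul_iff_right hX).1 h4
    obtain ⟨k, hk⟩ := h5
    have h6 := congrArg (eval 1) hk
    simp only [eval_mul, eval_C, eval_pow, eval_X, one_pow, mul_one, eval_sub, eval_one, sub_self,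
      zero_mul] at h6
    have : 0 < 2 * (A : ℤ) * (A + 1) * (2 * A + 1) := by positivity
    omega
  · rintro rfl
    have h1 : f.eval (-1) = 0 := root_int (by simpa using hz)
    have h2 : (X - C (-1) : ℤ[X]) ∣ f := dvd_iff_isRoot.2 h1
    have h2' : (X - C (-1) : ℤ[X]) = X + 1 := by simp
    rw [h2'] at h2
    have h3 : (X + 1 : ℤ[X]) ^ 2 ∣ T A := by
      obtain ⟨k, hk⟩ := h2
      refine ⟨(X - 1) ^ 3 * k * g, ?_⟩
      rw [← hF.eq, hk]
      unfold L4
      ring
    have h4 := pow_sub_one_dvd_derivative_of_pow_dvd h3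
    rw [show 2 - 1 = 1 from rfl, pow_one, der1] at h4
    obtain ⟨k, hk⟩ := h4
    have h6 := congrArg (eval (-1)) hk
    have e1 : (-1 : ℤ) ^ (2 * A + 1) = -1 := by
      rw [pow_succ, pow_mul]
      norm_num
    have e2 : (-1 : ℤ) ^ (2 * A) = 1 := by
      rw [pow_mul]
      norm_num
    simp only [eval_mul, eval_C, eval_pow, eval_X, eval_add, eval_sub, eval_one, e1, e2] at h6
    have h7 : -4 * (A : ℤ) * (A + 1) = 0 := by linear_combination h6
    have : 0 < (A : ℤ) * (A + 1) := by positivity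
    nlinarith

/-- a real polynomial without zeros and with positive leading coefficient is positive -/
theorem pos_of_no_root {P : ℝ[X]} (hd : 0 < P.degree) (hl : 0 ≤ P.leadingCoeff)
    (h : ∀ x, P.eval x ≠ 0) (x : ℝ) : 0 < P.eval x := by
  by_contra hx
  have h1 := tendsto_atTop_of_leadingCoeff_nonneg P hd hl
  obtain ⟨y, hy⟩ := (h1.eventually_ge_atTop 0).exists
  obtain ⟨w, hw⟩ := mem_range_of_exists_le_of_exists_ge P.continuous ⟨x, not_lt.1 hx⟩ ⟨y, hy⟩
  exact h w hw

/-- **POS** -/
theorem s_POS (hR : S_RT) : S_POS := by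
  intro A f g hA hF
  set F : ℝ[X] := f.map (algebraMap ℤ ℝ) with hFdef
  have hinj : Function.Injective (algebraMap ℤ ℝ) := by
    intro a b hab
    rw [eq_intCast, eq_intCast] at hab
    exact_mod_cast hab
  have hnd : F.natDegree = f.natDegree := natDegree_map_eq_of_injective hinj f
  have hlc : F.leadingCoeff = (f.leadingCoeff : ℝ) := by
    rw [hFdef, leadingCoeff_map_of_injective hinj, eq_intCast]
  have hlpos : 0 < F.leadingCoeff := by
    rw [hlc]
    exact_mod_cast hF.lf
  have hdeg : 0 < F.degree := by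
    rw [← natDegree_pos_iff_degree_pos, hnd]
    exact hF.df
  have hev : ∀ x : ℝ, F.eval x = aeval x f := fun x => eval_map_algebraMap f x
  have hroot : ∀ x : ℝ, F.eval x ≠ 0 := by
    intro x hx
    rw [hev] at hx
    have h1 : aeval ((x : ℝ) : ℂ) f = 0 := by
      have h2 := aeval_algebraMap_apply ℂ x f
      rw [hx, map_zero] at h2
      exact h2
    obtain ⟨-, h3, h4, h5⟩ := hR A f g hA hF x h1
    rw [Complex.norm_real, Real.norm_eq_abs] at h3
    rcases eq_or_eq_neg_of_abs_eq h3 with h | h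
    · apply h4
      rw [h]
      simp
    · apply h5
      rw [h]
      simp
  have hpos := pos_of_no_root hdeg hlpos.le hroot
  refine ⟨fun x => by rw [← hev]; exact hpos x, ?_⟩
  by_contra hodd
  rw [Nat.not_even_iff_odd] at hodd
  have hn1 : (-X : ℝ[X]).natDegree = 1 := by rw [natDegree_neg, natDegree_X]
  have hQd : (F.comp (-X)).natDegree = f.natDegree := by
    rw [natDegree_comp, hn1, mul_one, hnd]
  have hQl : (F.comp (-X)).leadingCoeff = -F.leadingCoeff := by
    rw [leadingCoeff_comp (by rw [hn1]; norm_num), leadingCoeff_neg, leadingCoeff_X, hnd,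
      hodd.neg_one_pow]
    ring
  have hQdeg : 0 < (F.comp (-X)).degree := by
    rw [← natDegree_pos_iff_degree_pos, hQd]
    exact hF.df
  have h1 := tendsto_atBot_of_leadingCoeff_nonpos (F.comp (-X)) hQdeg (by rw [hQl]; linarith)
  obtain ⟨y, hy⟩ := (h1.eventually_le_atBot 0).exists
  rw [eval_comp] at hy
  exact absurd hy (not_le.2 (hpos _))

/-- **CON** -/
theorem s_CON (hR : S_RT) (hP : S_POS) : S_CON := by
  intro A f g hA hF
  obtain ⟨hpos, -⟩ := hP A f g hA hF
  set F : ℂ[X] := f.map (algebraMap ℤ ℂ) with hFdef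
  have hinj : Function.Injective (algebraMap ℤ ℂ) := by
    intro a b hab
    rw [eq_intCast, eq_intCast] at hab
    exact_mod_cast hab
  have hsp : F.Splits := IsAlgClosed.splits F
  have h1 := hsp.coeff_zero_eq_leadingCoeff_mul_prod_roots
  have hlc : F.leadingCoeff = (f.leadingCoeff : ℂ) := by
    rw [hFdef, leadingCoeff_map_of_injective hinj, eq_intCast]
  have hc0 : F.coeff 0 = (f.coeff 0 : ℂ) := by
    rw [hFdef, coeff_map, eq_intCast]
  have hprod : ‖F.roots.prod‖ = 1 := by
    have h2 : ‖F.roots.prod‖ = (F.roots.map (fun z => ‖z‖)).prod := by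
      have := map_multiset_prod (normHom : ℂ →*₀ ℝ) F.roots
      exact this
    rw [h2]
    apply Multiset.prod_eq_one
    intro r hr
    obtain ⟨z, hz, rfl⟩ := Multiset.mem_map.1 hr
    have h3 : F.eval z = 0 := isRoot_of_mem_roots hz
    rw [hFdef, eval_map_algebraMap] at h3
    exact (hR A f g hA hF z h3).2.1
  have h3 := congrArg norm h1
  rw [norm_mul, norm_mul, hprod, mul_one, norm_pow, norm_neg, norm_one, one_pow, one_mul, hlc, hc0,
    Complex.norm_intCast, Complex.norm_intCast] at h3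
  have h4 : |f.coeff 0| = |f.leadingCoeff| := by exact_mod_cast h3
  have h5 : 0 < f.coeff 0 := by
    have h6 := hpos 0
    have h7 : aeval (0 : ℝ) f = (f.coeff 0 : ℝ) := by
      rw [← coeff_zero_eq_aeval_zero']
      simp
    rw [h7] at h6
    exact_mod_cast h6
  rwa [abs_of_pos h5, abs_of_pos hF.lf] at h4

end Pool.Agent.L7h96.TN
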